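import Pool.Agent.helper80.EN.Spec

/-! Row en:LOC (MP_43ab4e_al): `P` is a local property. -/

set_option autoImplicit false

namespace Pool.Agent.helper80.EN

open Subgroup

universe u

theorem LOC_del_one {G : Type u} [Group G] (α : MulAut G) : del α 1 = 1 := by
  simp [del]

theorem LOC_apply {G : Type u} [Group G] (α : MulAut G) (b : G) : α b = b * del α b := by
  simp [del]

theorem LOC_iter_one {G : Type u} [Group G] (α : MulAut G) (n : ℕ) : (del α)^[n] 1 = 1 :=
  Function.iterate_fixed (LOC_del_one α) n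

theorem LOC_iter_ge {G : Type u} [Group G] (α : MulAut G) (b : G) (n j : ℕ)
    (h : (del α)^[n] b = 1) (hj : n ≤ j) : (del α)^[j] b = 1 := by
  obtain ⟨k, rfl⟩ := Nat.exists_eq_add_of_le hj
  rw [Nat.add_comm, Function.iterate_add_apply, h, LOC_iter_one]

theorem LOC : LOC_stmt.{u} := by
  intro K _ hG α hα H hfg hle
  classical
  obtain ⟨T, hT⟩ := hfg
  have h1 : ∀ t : K, t ∈ Bra α → ∃ S : Finset K, t ∈ closure ((del α) '' (S : Set K)) := by
    intro t ht
    unfold Bra at ht
    induction ht using closure_induction with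
    | mem x hx =>
      obtain ⟨b, rfl⟩ := hx
      exact ⟨{b}, Subgroup.subset_closure ⟨b, by simp, rfl⟩⟩
    | one => exact ⟨∅, one_mem _⟩
    | mul x y _ _ hx hy =>
      obtain ⟨S1, h1⟩ := hx
      obtain ⟨S2, h2⟩ := hy
      refine ⟨S1 ∪ S2, mul_mem (closure_mono (Set.image_mono ?_) h1)
        (closure_mono (Set.image_mono ?_) h2)⟩
      · intro x hx; simp at hx ⊢; exact Or.inl hx
      · intro x hx; simp at hx ⊢; exact Or.inr hx
    | inv x _ hx =>
      obtain ⟨S1, h1⟩ := hx
      exact ⟨S1, inv_mem h1⟩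
  have hTB : ∀ t ∈ T, t ∈ Bra α := fun t ht => hle (hT ▸ Subgroup.subset_closure ht)
  choose! f hf using h1
  choose n hn using hα
  set S : Finset K := T.biUnion f with hS
  set G0 : Finset K :=
    S.biUnion (fun s => (Finset.range (n s + 1)).image (fun j => (del α)^[j] s)) with hG0
  set B : Subgroup K := closure (G0 : Set K) with hB
  have hiter : ∀ s ∈ S, ∀ j, (del α)^[j] s ∈ B := by
    intro s hs j
    by_cases hj : j ≤ n s
    · apply Subgroup.subset_closure
      simp only [hG0, Finset.coe_biUnion, Set.mem_iUnion, Finset.mem_coe, Finset.coe_image]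
      exact ⟨s, hs, j, by simp; omega, rfl⟩
    · rw [LOC_iter_ge α s (n s) j (hn s) (by omega)]
      exact one_mem _
  have hgen : ∀ x ∈ G0, ∃ s ∈ S, ∃ j, x = (del α)^[j] s := by
    intro x hx
    simp only [hG0, Finset.mem_biUnion, Finset.mem_image] at hx
    obtain ⟨s, hs, j, _, rfl⟩ := hx
    exact ⟨s, hs, j, rfl⟩
  have hmap : B.map α.toMonoidHom = B := by
    apply le_antisymm
    · rw [hB, MonoidHom.map_closure, closure_le]
      rintro _ ⟨x, hx, rfl⟩
      obtain ⟨s, hs, j, rfl⟩ := hgen x hx
      change α ((del α)^[j] s) ∈ B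
      rw [LOC_apply, ← Function.iterate_succ_apply' (del α) j s]
      exact mul_mem (hiter s hs j) (hiter s hs (j + 1))
    · have key : ∀ s ∈ S, ∀ k j, n s ≤ j + k → (del α)^[j] s ∈ B.map α.toMonoidHom := by
        intro s hs k
        induction k with
        | zero =>
          intro j hj
          rw [LOC_iter_ge α s (n s) j (hn s) (by omega)]
          exact one_mem _
        | succ k ih =>
          intro j hj
          have e : (del α)^[j] s = α ((del α)^[j] s) * ((del α)^[j + 1] s)⁻¹ := by
            rw [LOC_apply α ((del α)^[j] s), ← Function.iterate_succ_apply' (del α) j s]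
            group
          rw [e]
          refine mul_mem ?_ (inv_mem (ih (j + 1) (by omega)))
          exact ⟨(del α)^[j] s, hiter s hs j, rfl⟩
      rw [hB, closure_le, ← hB]
      intro x hx
      obtain ⟨s, hs, j, rfl⟩ := hgen x hx
      exact key s hs (n s) j (by omega)
  let α' : MulAut B := (α.subgroupMap B).trans (MulEquiv.subgroupCongr hmap)
  have hc : ∀ b : B, ((α' b : B) : K) = α b := fun b => rfl
  have hd : ∀ b : B, ((del α' b : B) : K) = del α (b : K) := by
    intro b
    simp [del, hc]
  have hi : ∀ (m : ℕ) (b : B), (((del α')^[m] b : B) : K) = (del α)^[m] (b : K) := by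
    intro m
    induction m with
    | zero => intro b; rfl
    | succ m ih =>
      intro b
      rw [Function.iterate_succ_apply', Function.iterate_succ_apply', hd, ih]
  have hE : EngelAut α' := by
    intro b
    refine ⟨n b, Subtype.ext ?_⟩
    rw [hi, hn]
    rfl
  have hL : LocNilp (Bra α') := hG B ⟨G0, rfl⟩ α' hE
  have hHm : H ≤ (Bra α').map B.subtype := by
    rw [← hT, closure_le]
    intro t ht
    have h2 := hf t (hTB t ht)
    have h3 : closure ((del α) '' (f t : Set K)) ≤ (Bra α').map B.subtype := by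
      rw [closure_le]
      rintro _ ⟨s, hs, rfl⟩
      have hsS : s ∈ S := by
        simp only [hS, Finset.mem_biUnion]
        exact ⟨t, ht, hs⟩
      refine ⟨del α' ⟨s, hiter s hsS 0⟩, Subgroup.subset_closure ⟨_, rfl⟩, ?_⟩
      exact hd ⟨s, hiter s hsS 0⟩
    exact h3 h2
  have hHB : H ≤ B := by
    intro x hx
    obtain ⟨y, _, rfl⟩ := hHm hx
    exact y.2
  have hHfg : Group.FG H := (Group.fg_iff_subgroup_fg H).2 ⟨T, hT⟩
  have hfg2 : Group.FG (H.subgroupOf B) :=
    Group.fg_of_surjective (f := (subgroupOfEquivOfLe hHB).symm.toMonoidHom)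
      (subgroupOfEquivOfLe hHB).symm.surjective
  have hnil : Group.IsNilpotent (H.subgroupOf B) := by
    refine hL _ ((Group.fg_iff_subgroup_fg _).1 hfg2) ?_
    intro x hx
    obtain ⟨y, hy, hyx⟩ := hHm (mem_subgroupOf.1 hx)
    have : y = x := Subtype.ext hyx
    rw [← this]
    exact hy
  exact Group.nilpotent_of_mulEquiv (subgroupOfEquivOfLe hHB)

end Pool.Agent.helper80.EN
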