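import Pool.Agent.helper80.EN.Spec2

set_option autoImplicit false

namespace Pool.Agent.helper80.EN

open Subgroup

universe u

theorem EEX_icom_map {G H : Type u} [Group G] [Group H] (f : G →* H) (x y : G) (n : ℕ) :
    icom (f x) (f y) n = f (icom x y n) := by
  induction n with
  | zero => rfl
  | succ n ih =>
    show com (icom (f x) (f y) n) (f y) = f (com (icom x y n) y)
    rw [ih]
    simp [com]

theorem EEX_engel {G H : Type u} [Group G] [Group H] (f : G →* H) (hf : Function.Surjective f)
    {a : G} (ha : LeftEngel a) : LeftEngel (f a) := by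
  intro h
  obtain ⟨g, rfl⟩ := hf h
  obtain ⟨n, hn⟩ := ha g
  exact ⟨n, by rw [EEX_icom_map, hn, map_one]⟩

theorem EEX (h1 : EXG_stmt.{u}) (h2 : MAI_stmt.{u}) (h3 : ESB_stmt.{u}) : EEX_stmt.{u} := by
  intro G _ N _ hN hE B a ha
  have hM : InL (N.subgroupOf B) := by
    let f : (N.subgroupOf B) →* N :=
      { toFun := fun x => ⟨((x : B) : G), Subgroup.mem_subgroupOf.mp x.2⟩
        map_one' := by
          ext
          simp
        map_mul' := by
          intro x y
          ext
          simp }
    refine InL.sub f ?_ hN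
    intro x y hxy
    have : (((x : B) : G)) = ((y : B) : G) := congrArg (fun z : N => (z : G)) hxy
    exact Subtype.ext (Subtype.ext this)
  refine h1 B (N.subgroupOf B) a ha ?_ ?_
  · intro m hm
    exact h2 B (N.subgroupOf B) hM a ha m hm
  · let f : B ⧸ (N.subgroupOf B) →* G ⧸ N :=
      QuotientGroup.map (N.subgroupOf B) N B.subtype (by
        intro x hx
        exact Subgroup.mem_subgroupOf.mp hx)
    have hf : Function.Injective f := by
      rw [injective_iff_map_eq_one]
      intro x
      refine QuotientGroup.induction_on x ?_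
      intro b hb
      have hb' : ((b : G) : G ⧸ N) = 1 := hb
      rw [QuotientGroup.eq_one_iff] at hb'
      rw [QuotientGroup.eq_one_iff]
      exact Subgroup.mem_subgroupOf.mpr hb'
    have hE2 : E (B ⧸ (N.subgroupOf B)) := h3.2.1 _ _ f hf hE
    exact h3.2.2 _ hE2 _ (EEX_engel (QuotientGroup.mk' (N.subgroupOf B))
      (QuotientGroup.mk'_surjective _) ha)

end Pool.Agent.helper80.EN
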